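import Pool.Agent.Helper42.Krein4

open MeasureTheory

namespace Pool.Agent.Results.MP_410e25_an.MeasurableDecomposition

/-- The open interval `(-A, A)`, for `A` in `(0, ∞]`. -/
def Interval (A : ENNReal) : Set ℝ := {x | ENNReal.ofReal |x| < A}

/-- Lebesgue measure on `(-A, A)`. -/
noncomputable def leb (A : ENNReal) : Measure (Interval A) :=
  Measure.comap (Subtype.val : Interval A → ℝ) (volume : Measure ℝ)

/-- The almost periodic polynomial `t ↦ ∑ c_l e^{i l t}` with exponents in `(-A, A)`, given by its
finitely supported family of coefficients. -/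
noncomputable def poly {A : ENNReal} (c : Interval A →₀ ℂ) (t : ℝ) : ℂ :=
  c.sum fun l z => z * Complex.exp (Complex.I * ((l : ℝ) * t))

/-- The linear functional on almost periodic polynomials with exponents in `(-A, A)` whose
chi-function is `f`: it sends `∑ c_l e_l` to `∑ c_l f(l)`. -/
noncomputable def functional {A : ENNReal} (f : Interval A → ℂ) (c : Interval A →₀ ℂ) : ℂ :=
  c.sum fun l z => z * f l

/-- The class `R_A` of all functions on `(-A, A)` whose functional is bounded for the sup-norm. -/
def RClass (A : ENNReal) : Set (Interval A → ℂ) :=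
  {f | ∃ C : ℝ, ∀ c : Interval A →₀ ℂ, ‖functional f c‖ ≤ C * ⨆ t : ℝ, ‖poly c t‖}

theorem isOpen_interval (A : ENNReal) : IsOpen (Interval A) := by
  have : Continuous (fun x : ℝ => ENNReal.ofReal |x|) :=
    ENNReal.continuous_ofReal.comp continuous_abs
  exact isOpen_lt this continuous_const

theorem poly_bddAbove {A : ENNReal} (c : Interval A →₀ ℂ) :
    BddAbove (Set.range fun t : ℝ => ‖poly c t‖) := by
  refine ⟨∑ l ∈ c.support, ‖c l‖, ?_⟩
  rintro _ ⟨t, rfl⟩
  unfold poly
  refine (norm_sum_le _ _).trans ?_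
  apply Finset.sum_le_sum
  intro l _
  rw [norm_mul]
  have : ‖Complex.exp (Complex.I * ((l : ℝ) * t))‖ = 1 := by
    rw [mul_comm, ← Complex.ofReal_mul]
    exact Complex.norm_exp_ofReal_mul_I _
  rw [this, mul_one]

open Classical in
theorem bdd_of_mem {A : ENNReal} {f : Interval A → ℂ} (hf : f ∈ RClass A) :
    ∃ C : ℝ, 0 ≤ C ∧ Helper42.Krein.Bdd (Interval A)
      (fun x => if h : x ∈ Interval A then f ⟨x, h⟩ else 0) C := by
  obtain ⟨C, hC⟩ := hf
  refine ⟨max C 0, le_max_right _ _, ?_⟩
  intro s c M hs hM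
  have hM0 : 0 ≤ M := (norm_nonneg _).trans (hM 0)
  let s' : Finset (Interval A) := s.subtype (· ∈ Interval A)
  let c' : Interval A →₀ ℂ := Finsupp.onFinset s' (fun l => if l.1 ∈ s then c l.1 else 0) (by
    intro l hl
    simp only [s', Finset.mem_subtype]
    by_contra h
    exact hl (by simp [h]))
  have hsum : ∀ g : Interval A → ℂ → ℂ, (∀ l, g l 0 = 0) → ∀ G : ℝ → ℂ,
      (∀ l : Interval A, l.1 ∈ s → g l (c l.1) = G l.1) → c'.sum g = ∑ x ∈ s, G x := by
    intro g hg G hG
    rw [Finsupp.onFinset_sum _ (fun l => hg l)]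
    have h1 : ∑ x ∈ s, G x = ∑ l ∈ s', G l.1 := by
      rw [Finset.sum_subtype_of_mem (p := (· ∈ Interval A)) G hs]
    rw [h1]
    apply Finset.sum_congr rfl
    intro l hl
    have hl' : l.1 ∈ s := by simpa [s'] using hl
    rw [if_pos hl']
    exact hG l hl'
  have h1 : functional f c' = ∑ x ∈ s, c x * (if h : x ∈ Interval A then f ⟨x, h⟩ else 0) := by
    apply hsum
    · intro l; simp
    · intro l _
      rw [dif_pos l.2]
  have h2 : ∀ t : ℝ, ‖poly c' t‖ ≤ M := by
    intro t
    have h3 : poly c' t = ∑ x ∈ s, c x * Complex.exp (2 * Real.pi * Complex.I * (x * (t / (2 * Real.pi) : ℝ))) := by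
      apply hsum
      · intro l; simp
      · intro l _
        congr 2
        have : (Real.pi : ℂ) ≠ 0 := by exact_mod_cast Real.pi_ne_zero
        push_cast
        field_simp
    rw [h3]
    exact hM _
  have h4 : (⨆ t : ℝ, ‖poly c' t‖) ≤ M := ciSup_le h2
  have h5 : 0 ≤ ⨆ t : ℝ, ‖poly c' t‖ := Real.iSup_nonneg (fun t => norm_nonneg _)
  change ‖∑ x ∈ s, c x * (if h : x ∈ Interval A then f ⟨x, h⟩ else 0)‖ ≤ _
  rw [← h1]
  refine (hC c').trans ?_
  calc C * (⨆ t : ℝ, ‖poly c' t‖) ≤ max C 0 * (⨆ t : ℝ, ‖poly c' t‖) := by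
        gcongr; exact le_max_left _ _
    _ ≤ max C 0 * M := by gcongr

open Classical in
theorem mem_of_bdd {A : ENNReal} {G : ℝ → ℂ} {C : ℝ} (hG : Helper42.Krein.Bdd (Interval A) G C) :
    (fun l : Interval A => G l.1) ∈ RClass A := by
  refine ⟨C, ?_⟩
  intro c
  let s : Finset ℝ := c.support.map ⟨Subtype.val, Subtype.val_injective⟩
  let c0 : ℝ → ℂ := fun x => if h : x ∈ Interval A then c ⟨x, h⟩ else 0
  have h1 : functional (fun l : Interval A => G l.1) c = ∑ x ∈ s, c0 x * G x := by
    simp only [functional, Finsupp.sum, s, Finset.sum_map, Function.Embedding.coeFn_mk, c0]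
    apply Finset.sum_congr rfl
    intro l _
    rw [dif_pos l.2]
  rw [h1]
  apply hG
  · intro x hx
    simp only [s, Finset.mem_map, Function.Embedding.coeFn_mk] at hx
    obtain ⟨l, _, rfl⟩ := hx
    exact l.2
  · intro t
    have h2 : ∑ x ∈ s, c0 x * Complex.exp (2 * Real.pi * Complex.I * (x * t)) = poly c (2 * Real.pi * t) := by
      simp only [poly, Finsupp.sum, s, Finset.sum_map, Function.Embedding.coeFn_mk, c0]
      apply Finset.sum_congr rfl
      intro l _
      rw [dif_pos l.2]
      congr 2
      push_cast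
      ring
    rw [h2]
    exact le_ciSup (poly_bddAbove c) (2 * Real.pi * t)

theorem sub_mem {A : ENNReal} {f g : Interval A → ℂ} (hf : f ∈ RClass A) (hg : g ∈ RClass A) :
    f - g ∈ RClass A := by
  obtain ⟨C, hC⟩ := hf
  obtain ⟨D, hD⟩ := hg
  refine ⟨C + D, ?_⟩
  intro c
  have h1 : functional (f - g) c = functional f c - functional g c := by
    simp only [functional, Finsupp.sum, ← Finset.sum_sub_distrib]
    apply Finset.sum_congr rfl
    intro l _
    simp only [Pi.sub_apply]
    ring
  rw [h1]
  refine (norm_sub_le _ _).trans ?_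
  have := hC c
  have := hD c
  linarith

/-- **Q1 of MP_410e25_an has a positive answer.** For every `A` in `(0, ∞]`, every Lebesgue
measurable `f` in `R_A` is `fc + fm` with `fc` a continuous element of `R_A`, `fm` a Lebesgue
measurable element of `R_A`, and `fm = 0` almost everywhere. -/
theorem result (A : ENNReal) (_hA : 0 < A) (f : Interval A → ℂ) (hf : f ∈ RClass A)
    (hm : NullMeasurable f (leb A)) :
    ∃ fc fm : Interval A → ℂ, f = fc + fm ∧
      (fc ∈ RClass A ∧ Continuous fc) ∧
      (fm ∈ RClass A ∧ NullMeasurable fm (leb A)) ∧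
      fm =ᵐ[leb A] 0 := by
  classical
  obtain ⟨C, hC0, hC⟩ := bdd_of_mem hf
  set F : ℝ → ℂ := fun x => if h : x ∈ Interval A then f ⟨x, h⟩ else 0 with hF
  have hIm : MeasurableSet (Interval A) := (isOpen_interval A).measurableSet
  have hFv : ∀ l : Interval A, F l.1 = f l := by
    intro l
    simp only [hF]
    rw [dif_pos l.2]
  -- measurability of the extension
  have hFae : AEMeasurable F (volume.restrict (Interval A)) := by
    rw [aemeasurable_restrict_iff_comap_subtype hIm]
    have : F ∘ (Subtype.val : Interval A → ℝ) = f := by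
      ext l
      exact hFv l
    rw [this]
    exact hm.aemeasurable
  have hFind : F = (Interval A).indicator F := by
    ext x
    by_cases hx : x ∈ Interval A
    · rw [Set.indicator_of_mem hx]
    · rw [Set.indicator_of_notMem hx]
      simp only [hF]
      rw [dif_neg hx]
  have hFae2 : AEMeasurable F volume := by
    rw [hFind]
    exact (aemeasurable_indicator_iff hIm).mpr hFae
  have hFb : ∀ x, ‖F x‖ ≤ C := by
    intro x
    by_cases hx : x ∈ Interval A
    · have := hC {x} (fun _ => 1) 1 (by simpa using hx) (by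
        intro t
        rw [Finset.sum_singleton, one_mul]
        have h2 : (2 * Real.pi * Complex.I * (x * t) : ℂ) = ((2 * Real.pi * (x * t) : ℝ) : ℂ) * Complex.I := by
          push_cast; ring
        rw [h2, Complex.norm_exp_ofReal_mul_I])
      simpa using this
    · have : F x = 0 := by simp only [hF]; rw [dif_neg hx]
      rw [this]
      simpa using hC0
  have hFm : LocallyIntegrable F := by
    have h1 : LocallyIntegrable (fun _ : ℝ => C) := locallyIntegrable_const C
    exact h1.mono hFae2.aestronglyMeasurable (Filter.Eventually.of_forall (fun x => by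
      rw [Real.norm_of_nonneg hC0]; exact hFb x))
  obtain ⟨G, hGc, hGb, hGe⟩ := Helper42.Krein.main (isOpen_interval A) hC0 hC hFm
  have hfc : (fun l : Interval A => G l.1) ∈ RClass A := mem_of_bdd hGb
  have hcont : Continuous (fun l : Interval A => G l.1) := continuousOn_iff_continuous_domRestrict.mp hGc
  refine ⟨fun l => G l.1, f - fun l => G l.1, by simp, ⟨hfc, hcont⟩, ⟨sub_mem hf hfc, ?_⟩, ?_⟩
  · exact (hm.aemeasurable.sub hcont.measurable.aemeasurable).nullMeasurable
  · have h1 : ∀ᵐ x ∂(volume.restrict (Interval A)), F x = G x :=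
      (ae_restrict_iff' hIm).mpr hGe
    have h2 : ∀ᵐ l : Interval A ∂(leb A), F l.1 = G l.1 :=
      (ae_restrict_iff_subtype hIm (p := fun x => F x = G x)).mp h1
    filter_upwards [h2] with l hl
    simp only [Pi.sub_apply, Pi.zero_apply]
    rw [← hFv l, hl, sub_self]

end Pool.Agent.Results.MP_410e25_an.MeasurableDecomposition
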